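import Pool.Agent.H25.TRI.Targets

/-! Mollifiers exist and converge almost everywhere (row C_MOL of reg). -/

namespace Pool.Agent.H95.TRI

open MeasureTheory Metric Set Filter Topology Pool.Agent.H87.SN Pool.Agent.H25.TRI
open scoped ContDiff RealInnerProductSpace ENNReal Convolution

noncomputable section

/-- a standard sequence of bump functions -/
def bmp (n k : ℕ) : ContDiffBump (0 : E n) where
  rIn := 1 / (2 * ((k : ℝ) + 1))
  rOut := 1 / ((k : ℝ) + 1)
  rIn_pos := by positivity
  rIn_lt_rOut := by
    have : (0 : ℝ) < (k : ℝ) + 1 := by positivity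
    rw [div_lt_div_iff₀ (by positivity) this]
    linarith

theorem pf_MOL : T_MOL := by
  intro n
  refine ⟨fun k => (bmp n k).normed volume, ⟨fun k => ⟨(bmp n k).contDiff_normed,
    (bmp n k).hasCompactSupport_normed⟩, fun k => (bmp n k).nonneg_normed,
    fun k => (bmp n k).integral_normed, fun k => ?_⟩, ?_⟩
  · rw [(bmp n k).tsupport_normed_eq]
    exact subset_rfl
  · intro f hf
    have h1 : Tendsto (fun k : ℕ => (bmp n k).rOut) atTop (𝓝 0) :=
      tendsto_one_div_add_atTop_nhds_zero_nat
    have h2 : ∀ᶠ k : ℕ in atTop, (bmp n k).rOut ≤ 2 * (bmp n k).rIn := by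
      refine Eventually.of_forall fun k => ?_
      show 1 / ((k : ℝ) + 1) ≤ 2 * (1 / (2 * ((k : ℝ) + 1)))
      have : (0 : ℝ) < (k : ℝ) + 1 := by positivity
      rw [mul_one_div, div_le_div_iff₀ this (by positivity)]
      linarith
    exact ContDiffBump.ae_convolution_tendsto_right_of_locallyIntegrable h1 h2
      hf.locallyIntegrable

end

end Pool.Agent.H95.TRI
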